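import Pool.Agent.Y459.Symp.Count

set_option autoImplicit false

/-! The group of compactly supported symplectomorphisms of `ℝ^{2n}`, with the direct limit of the
`C^∞` topologies, has countably many path components, for every `n`. -/

namespace Pool.Agent.Results.MP_ec5dc5_gt.CountableComponents

open Pool.Agent.Y459.Symp

theorem result (n : ℕ) : Countable (ZerothHomotopy (SympCt (stdForm n))) :=
  countable_std n

end Pool.Agent.Results.MP_ec5dc5_gt.CountableComponents
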