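import Pool.Agent.Y459.Symp.NoReversal

set_option autoImplicit false

/-! A compactly supported symplectomorphism of `ℝ^{2n}` whose differentials never reverse the
direction of a vector is joined to the identity inside the group of compactly supported
symplectomorphisms. -/

namespace Pool.Agent.Results.MP_ec5dc5_gt.NoDirectionReversed

open Pool.Agent.Y459.Symp

theorem result (n : ℕ) (φ : SympCt (stdForm n))
    (h : ∀ (z v : R2n n), v ≠ 0 → ∀ c : ℝ, 0 < c → fderiv ℝ φ.1 z v ≠ -(c • v)) :
    Joined 1 φ := by
  let B : R2n n →ₗ[ℝ] R2n n →ₗ[ℝ] ℝ := stdBilin n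
  exact joined_of_no_reversal B φ h

end Pool.Agent.Results.MP_ec5dc5_gt.NoDirectionReversed
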